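import Pool.Agent.MP_c69980_ag.H43.Spec10

/-!
The cover of the generic leaf is unramified and lies in the open set in codimension one.
-/

set_option autoImplicit false

namespace Pool.Agent.MP_c69980_ag.H43

open MvPolynomial H60 Finset

section Gen
variable {F K : Type} [Field F] [Field K] [Algebra F K]

/-- The centre of a valuation ring. -/
def EtKp (R : Subalgebra F K) (V : ValuationSubring K) (h : ∀ r ∈ R, r ∈ V) : Ideal R where
  carrier := {r | V.valuation (r : K) < 1}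
  add_mem' := fun ha hb => V.valuation.map_add_lt ha hb
  zero_mem' := by simp
  smul_mem' := fun c r hr => by
    show V.valuation ((c : K) * r) < 1
    rw [map_mul]
    exact (mul_le_of_le_one_left' ((V.valuation_le_one_iff _).2 (h _ c.2))).trans_lt hr

lemma EtK_one {V : ValuationSubring K} {x : K} (h : x ∈ V) (h' : ¬ V.valuation x < 1) :
    V.valuation x = 1 := le_antisymm ((V.valuation_le_one_iff _).2 h) (not_lt.1 h')

lemma EtK_prime (R : Subalgebra F K) (V : ValuationSubring K) (h : ∀ r ∈ R, r ∈ V) :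
    (EtKp R V h).IsPrime := by
  refine ⟨(Ideal.ne_top_iff_one _).2 fun e => ?_, fun {a b} e => ?_⟩
  · have : V.valuation (1 : K) < 1 := e
    simp at this
  · by_contra hn
    rw [not_or] at hn
    have : V.valuation ((a : K) * b) < 1 := e
    rw [map_mul, EtK_one (h _ a.2) hn.1, EtK_one (h _ b.2) hn.2] at this
    simp at this

lemma EtK_le {ι : Type} {x : ι → K} {V : ValuationSubring K} (h1 : ∀ c : F, algebraMap F K c ∈ V)
    (h2 : ∀ i, x i ∈ V) : ∀ r ∈ Algebra.adjoin F (Set.range x), r ∈ V := by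
  intro r hr
  induction hr using Algebra.adjoin_induction with
  | mem u h => obtain ⟨i, rfl⟩ := h; exact h2 i
  | algebraMap c => exact h1 c
  | add _ _ _ _ a b => exact add_mem a b
  | mul _ _ _ _ a b => exact mul_mem a b

lemma EtK_aeval {R : Subalgebra F K} {σ : Type} (v : σ → R) (P : MvPolynomial σ F) :
    ((aeval v P : R) : K) = aeval (fun i => (v i : K)) P := comp_aeval_apply v R.val P

lemma EtK_exch {B : Type} [CommRing B] [IsDomain B] [Algebra F B] {ι : Type} (x : ι → B)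
    (hx : Algebra.adjoin F (Set.range x) = ⊤) {m : ℕ} {v : Fin m → B}
    (h : AlgebraicIndependent F v) : ∃ y : Fin m → ι, AlgebraicIndependent F (x ∘ y) := by
  have : Algebra.IsAlgebraic (Algebra.adjoin F (Set.range x)) B :=
    ⟨fun b => isAlgebraic_algebraMap (⟨b, by rw [hx]; trivial⟩ : Algebra.adjoin F (Set.range x))⟩
  obtain ⟨T, h1, h2⟩ := exists_isTranscendenceBasis_subset (R := F) (Set.range x)
  have h3 := h.cardinalMk_le_trdeg
  rw [← h2.cardinalMk_eq_trdeg] at h3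
  obtain ⟨e⟩ := (Cardinal.le_def _ _).1 h3
  choose y hy using fun k => h1 (e k).2
  exact ⟨y, (funext hy : x ∘ y = (fun s : T => (s : B)) ∘ e) ▸ h2.1.comp e e.injective⟩

lemma EtK_res {ι : Type} {x : ι → K} {V : ValuationSubring K}
    (hV : ∀ r ∈ Algebra.adjoin F (Set.range x), r ∈ V) {m : ℕ} {v : Fin m → K}
    (hv : ∀ i, v i ∈ Algebra.adjoin F (Set.range x))
    (h : ∀ P : MvPolynomial (Fin m) F, P ≠ 0 → V.valuation (aeval v P) = 1) :
    ∃ y : Fin m → ι, ∀ P : MvPolynomial (Fin m) F, P ≠ 0 → V.valuation (aeval (x ∘ y) P) = 1 := by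
  have := EtK_prime _ V hV
  let π := Ideal.Quotient.mkₐ F (EtKp _ V hV)
  have key : ∀ (z : Fin m → Algebra.adjoin F (Set.range x)) (P : MvPolynomial (Fin m) F),
      aeval (π ∘ z) P = 0 ↔ V.valuation (aeval (fun i => (z i : K)) P) < 1 := fun z P => by
    rw [← EtK_aeval]
    refine Iff.trans ?_ (Ideal.Quotient.eq_zero_iff_mem (I := EtKp _ V hV))
    rw [show aeval (π ∘ z) P = π (aeval z P) from (comp_aeval_apply z π P).symm]
    rfl
  let x' : ι → Algebra.adjoin F (Set.range x) := fun i => ⟨x i, Algebra.subset_adjoin ⟨i, rfl⟩⟩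
  obtain ⟨y, hy⟩ := EtK_exch (F := F) (π ∘ x') (v := π ∘ fun i => ⟨v i, hv i⟩) (by
    rw [Set.range_comp, ← AlgHom.map_adjoin, show Set.range x' = Subtype.val ⁻¹' Set.range x from
      Set.ext fun s => ⟨fun ⟨i, e⟩ => ⟨i, congrArg Subtype.val e⟩, fun ⟨i, e⟩ => ⟨i, Subtype.ext e⟩⟩,
      Algebra.adjoin_adjoin_coe_preimage, Algebra.map_top, AlgHom.range_eq_top]
    exact Ideal.Quotient.mkₐ_surjective F _) (by
    rw [algebraicIndependent_iff]
    intro P hP
    by_contra e
    exact ((key _ P).1 hP).ne (h P e))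
  refine ⟨y, fun P hP => EtK_one (hV _ ?_) fun e => hP ?_⟩
  · exact (EtK_aeval (x' ∘ y) P) ▸ (aeval (x' ∘ y) P).2
  · exact algebraicIndependent_iff.1 hy P ((key (x' ∘ y) P).2 e)

lemma EtK_int {R : Subalgebra F K} {V : ValuationSubring K} (h : ∀ r ∈ R, r ∈ V) {x : K}
    (hx : IsIntegral R x) : x ∈ V := by
  have : IsIntegral V x := IsIntegral.map_of_comp_eq (ψ := RingHom.id K)
    (R.val.toRingHom.codRestrict V.toSubring fun r => h _ r.2) rfl hx
  obtain ⟨y, rfl⟩ := IsIntegrallyClosed.isIntegral_iff.1 this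
  exact y.2

lemma EtK_ic {ι : Type} {x : ι → K} {r : ℕ} {y : Fin (r + 1) → K}
    (h1 : ∀ i, y i ∈ Algebra.adjoin F (Set.range x)) (h2 : ∀ i, x i ∈ IC F y) (z : K) :
    IsIntegral (Algebra.adjoin F (Set.range x)) z ↔ z ∈ IC F y := by
  refine ⟨fun h => ?_, fun h => ?_⟩
  · have e : ∀ s ∈ Algebra.adjoin F (Set.range x), s ∈ IC F y := fun s hs =>
      (Algebra.adjoin_le (S := (IC F y).restrictScalars F) (Set.range_subset_iff.2 h2)) hs
    exact isIntegral_trans (A := IC F y) z (IsIntegral.map_of_comp_eq (ψ := RingHom.id K)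
      ((Algebra.adjoin F (Set.range x)).val.toRingHom.codRestrict (IC F y) fun s => e _ s.2) rfl h)
  · exact IsIntegral.map_of_comp_eq (ψ := RingHom.id K)
      (Subalgebra.inclusion (Algebra.adjoin_le (Set.range_subset_iff.2 h1))).toRingHom rfl h

lemma EtK_den {r : ℕ} {y : Fin (r + 1) → K} (h : Noe F y) {V : ValuationSubring K} (hV : Dv F y V)
    {κ : Type} [Fintype κ] (q : κ → K) (hq : ∀ k, q k ∈ V) :
    ∃ b ∈ IC F y, V.valuation b = 1 ∧ ∀ k, b * q k ∈ IC F y := by
  classical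
  choose a ha b hb h1 h2 using fun k => h.loc V hV (q k) (hq k)
  refine ⟨∏ k, b k, prod_mem fun k _ => hb k, by simp [h1], fun k => ?_⟩
  rw [← Finset.prod_erase_mul _ _ (mem_univ k), mul_assoc, mul_comm (b k), h2]
  exact mul_mem (prod_mem fun k _ => hb k) (ha k)

lemma EtK_cod {r : ℕ} {y : Fin (r + 1) → K} (h : Noe F y) (I : Set (IC F y))
    (hI : ∀ V, Dv F y V → ∃ x ∈ I, V.valuation (x : K) = 1) (v : Fin r → IC F y) :
    ∃ P : MvPolynomial (Fin r) F, P ≠ 0 ∧ aeval v P ∈ Ideal.span I := by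
  by_contra hn
  obtain ⟨p, hp, h1, h2⟩ := (Ideal.span I).exists_le_prime_disjoint
    ((nonZeroDivisors (MvPolynomial (Fin r) F)).map (aeval v : _ →ₐ[F] IC F y))
    (Set.disjoint_left.2 fun _ e ⟨P, a, b⟩ => hn ⟨P, nonZeroDivisors.ne_zero a, b ▸ e⟩)
  let ξ : IC F y →ₐ[F] FractionRing (IC F y ⧸ p) :=
    (IsScalarTower.toAlgHom F (IC F y ⧸ p) _).comp (Ideal.Quotient.mkₐ F p)
  have hξ : ∀ s, ξ s = 0 ↔ s ∈ p := fun s =>
    (map_eq_zero_iff _ (IsFractionRing.injective (IC F y ⧸ p) _)).trans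
      Ideal.Quotient.eq_zero_iff_mem
  refine h.cod I (fun V hV => ?_) _ ξ (fun s hs => (hξ s).2 (h1 (Ideal.subset_span hs))) v ?_
  · obtain ⟨s, a, b⟩ := hI V hV
    exact ⟨s, Ideal.subset_span a, b⟩
  · rw [algebraicIndependent_iff]
    intro P hP
    by_contra e
    rw [show aeval (ξ ∘ v) P = ξ (aeval v P) from (comp_aeval_apply v ξ P).symm, hξ] at hP
    exact Set.disjoint_left.1 h2 hP ⟨P, mem_nonZeroDivisors_of_ne_zero e, rfl⟩

end Gen

variable {t a M n : ℕ} {K : Type} [Field K] [Algebra ℂ K] {w : Fin M → Option (Fin t)}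
  {PP : PT M t a} {u : Fin M → K} {β : Cht M t}

lemma EtK_alg (G : IntermediateField ℂ K) (hβ : Ch w β u) (h : Algebra.IsAlgebraic (K0 u) K) :
    Algebra.IsAlgebraic (IntermediateField.adjoin G (Set.range (co β u))) K := by
  have e : K0 u ≤ (IntermediateField.adjoin G (Set.range (co β u))).restrictScalars ℂ := by
    refine IntermediateField.adjoin_le_iff.2 ?_
    rintro _ ⟨c, b, rfl⟩
    rw [div_eq_co hβ]
    exact div_mem (IntermediateField.subset_adjoin G _ ⟨_, rfl⟩)
      (IntermediateField.subset_adjoin G _ ⟨_, rfl⟩)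
  exact ⟨fun x => IsAlgebraic.ringHom_of_comp_eq (S := IntermediateField.adjoin G _)
    ((K0 u).val.toRingHom.codRestrict _ fun s => e s.2) (RingHom.id K) (h.1 x)
    (RingHom.injective _) rfl⟩

lemma EtK_pres (G : IntermediateField ℂ K) (hβ : Ch w β u) {D : Derivation ℂ K K}
    {g : Fin (t + a) → K} (h1 : ∀ c ∈ G, D c = 0) (h2 : ∀ i, g i ∈ G) (h3 : Vel w PP D u g) :
    ∀ s ∈ RF G (co β u), D s ∈ RF G (co β u) := by
  intro s hs
  induction hs using Algebra.adjoin_induction with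
  | mem s h =>
    obtain ⟨i, rfl⟩ := h
    rw [h3 β hβ]
    refine sum_mem fun j _ => mul_mem (algebraMap_mem _ (⟨g j, h2 j⟩ : G)) ?_
    induction PP β j i using MvPolynomial.induction_on with
    | C c => rw [aeval_C]; exact algebraMap_mem _ (algebraMap ℂ G c)
    | add p q a b => rw [map_add]; exact add_mem a b
    | mul_X p i a => rw [map_mul, aeval_X]; exact mul_mem a (Algebra.subset_adjoin ⟨i, rfl⟩)
  | algebraMap c => exact (h1 c c.2).symm ▸ zero_mem _
  | add _ _ _ _ a b => rw [map_add]; exact add_mem a b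
  | mul _ _ p q a b => rw [Derivation.leibniz]; exact add_mem (mul_mem p b) (mul_mem q a)

lemma EtK_tan {F F' : IntermediateField ℂ K} (hF : F ≤ F') (hβ : Ch w β u) {D : Derivation ℂ K K}
    {g : Fin (t + a) → K} (h1 : ∀ c ∈ F', D c = 0) (h2 : ∀ i, g i ∈ F) (h3 : Vel w PP D u g)
    (ha : Algebra.IsAlgebraic (K0 u) K) (hS : SimK (RF F' (co β u)) D) {V : ValuationSubring K}
    (hV : ∀ r ∈ RF F' (co β u), r ∈ V) (hT : TanV F (co β u) V D) (x : K) : x ∈ V := by
  have e : ∀ s ∈ RF F (co β u), s ∈ RF F' (co β u) := fun s hs => by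
    induction hs using Algebra.adjoin_induction with
    | mem s h => exact Algebra.subset_adjoin h
    | algebraMap c => exact algebraMap_mem _ (⟨c, hF c.2⟩ : F')
    | add _ _ _ _ a b => exact add_mem a b
    | mul _ _ _ _ a b => exact mul_mem a b
  have p1 := EtK_pres F hβ (fun c hc => h1 c (hF hc)) h2 h3
  have p2 := EtK_pres F' hβ h1 (fun i => hF (h2 i)) h3
  let J : Set (RF F' (co β u)) := {s | (s : K) ∈ RF F (co β u) ∧ V.valuation (s : K) < 1}
  have hJ : Ideal.span J = ⊥ := by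
    refine (hS _ fun s hs s' e' => ?_).resolve_right fun e' => (EtK_prime _ V hV).ne_top
      (top_le_iff.1 (e' ▸ Ideal.span_le.2 fun s hs => hs.2))
    obtain rfl : s' = ⟨D s, p2 _ s.2⟩ := Subtype.ext e'
    clear e'
    induction hs using Submodule.span_induction with
    | mem s h => exact Ideal.subset_span ⟨p1 _ h.1, hT _ h.1 h.2⟩
    | zero =>
      convert zero_mem (Ideal.span J) using 1
      exact Subtype.ext (map_zero D)
    | add s s' _ _ a b =>
      convert add_mem a b using 1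
      exact Subtype.ext (map_add D _ _)
    | smul c s p a =>
      convert add_mem (Ideal.mul_mem_left _ c a) (Ideal.mul_mem_right ⟨D c, p2 _ c.2⟩ _ p) using 1
      exact Subtype.ext (D.leibniz _ _)
  have := EtK_alg F hβ ha
  refine EtK_int (R := (IntermediateField.adjoin F (Set.range (co β u))).toSubalgebra)
    (fun s hs => ?_) (this.isIntegral.1 x)
  obtain ⟨p, hp, q, hq, rfl⟩ := IntermediateField.mem_adjoin_iff_div.1 hs
  by_cases q0 : q = 0
  · simp [q0]
  rw [← V.valuation_le_one_iff, map_div₀, EtK_one (hV _ (e _ hq)) fun l => q0 ?_, div_one,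
    V.valuation_le_one_iff]
  · exact hV _ (e _ hp)
  · exact congrArg Subtype.val
      (Ideal.span_eq_bot.1 hJ ⟨q, e _ hq⟩ ⟨hq, l⟩)

theorem sEtK (h1 : SNoe) (h2 : SGDs) (h3 : SDivT) : SEtK := by
  intro t a M n w Θ PP K _ _ U z u F F' r m lam d f c lam' d' f' g1 gk b0 lf
  have : CharZero F' := charZero_of_injective_algebraMap (algebraMap ℂ F').injective
  let D : Derivation ℂ K K := ∑ l, c l • d l
  have hD : (D : K → K) = fun x => ∑ l, c l * d l x := funext fun x => by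
    have := congrFun (map_sum Derivation.coeFnAddMonoidHom (fun l => c l • d l) univ) x
    rwa [Finset.sum_apply] at this
  let g : Fin (t + a) → K := fun i => ∑ l, c l * algebraMap ℂ K (lam l i)
  have gF : ∀ i, g i ∈ F := fun i => sum_mem fun l _ => mul_mem (b0.cF l) (algebraMap_mem _ _)
  have gV : Vel w PP D u g := fun β hβ x => by
    simp only [hD, b0.vel _ β hβ, vf, g, mul_sum, sum_mul, mul_assoc]
    exact sum_comm
  have hk : ∀ x, x ∈ F' ↔ D x = 0 := fun x => by rw [hD]; exact lf.ker x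
  have key : ∀ β, Ch w β u → ∃ y : Fin (m + 1) → K, (∀ s, IsIntegral (RF F' (co β u)) s ↔
      s ∈ IC F' y) ∧ Noe F' y ∧ ∀ V, Dv F' y V → (∀ s ∈ IC F' y, s ∈ V) ∧ Cen U z V ∧
        ∀ l, ∀ x ∈ V, d l x ∈ V := fun β hβ => by
    obtain ⟨y, y1, y2, y3⟩ := h1 F' K _ (co β u) m (EtK_alg F' hβ lf.hf)
      (lf.fg.imp fun T => IntermediateField.adjoin_eq_top_of_adjoin_eq_top ℂ)
      (by rw [← lf.tb.cardinalMk_eq_trdeg]; simp)
    have ic := EtK_ic y1 y2
    refine ⟨y, ic, y3, fun V hV => ?_⟩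
    have v1 : ∀ s ∈ IC F' y, s ∈ V := fun s hs => EtK_int (fun s hs => by
      rw [Algebra.adjoin_range_eq_range_aeval] at hs
      obtain ⟨P, rfl⟩ := hs
      exact hV.1 P) hs
    have v2 : ∀ s ∈ RF F' (co β u), s ∈ V := fun s hs =>
      v1 s ((ic s).1 (isIntegral_algebraMap (x := (⟨s, hs⟩ : RF F' (co β u)))))
    obtain ⟨i, hi⟩ := y3.res V hV
    obtain ⟨y', hy'⟩ := EtK_res v2 (fun j => y1 _) hi
    obtain ⟨p, hp, hp'⟩ := hV.2
    have p0 : aeval y p ≠ 0 := fun e => hp.ne_zero (algebraicIndependent_iff.1 y3.ind p e)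
    have p1 := (hp' p).2 dvd_rfl
    have hS := h2 _ _ _ w Θ PP K u F' D g β g1 lf.on (fun i => lf.le (gF i)) gV hk hβ
    obtain ⟨y'', hy''⟩ := h3 _ _ _ w Θ PP K u F F' r m lam d f c lam' d' f' β V y' gk b0.toBX b0.cF
      lf (hD ▸ hS) ⟨hβ, fun x hx => v2 _ (algebraMap_mem _ (⟨x, hx⟩ : F')),
        fun x => v2 _ (Algebra.subset_adjoin ⟨x, rfl⟩), hy'⟩
      ⟨_, Algebra.adjoin_le (Set.range_subset_iff.2 y1) (by
        rw [Algebra.adjoin_range_eq_range_aeval]; exact ⟨p, rfl⟩), p0, p1⟩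
    refine ⟨v1, (b0.bad β V y'' hy'').resolve_left fun hT => ?_⟩
    have := EtK_tan lf.le hβ (fun x => (hk x).1) gF gV lf.hf hS v2 (hD ▸ hT) (aeval y p)⁻¹
    rw [← V.valuation_le_one_iff, map_inv₀, inv_le_one₀ (by simpa [zero_lt_iff] using p0)] at this
    exact this.not_gt p1
  refine ⟨lf.toBX, fun β hβ l x hx => ?_, fun β hβ y₀ => ?_⟩
  · obtain ⟨y, ic, y3, hV⟩ := key β hβ
    obtain ⟨e, he⟩ := lf.comb l
    rw [ic] at hx ⊢
    refine y3.int _ fun V h => ?_
    obtain ⟨v1, -, v3⟩ := hV V h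
    rw [he]
    refine sum_mem fun l _ => ?_
    rw [Algebra.smul_def]
    refine mul_mem (v1 _ ((ic _).1 ?_)) (v3 l x (v1 x hx))
    exact isIntegral_algebraMap (x := (algebraMap ℂ (RF F' (co β u)) (e l)))
  · obtain ⟨y, ic, y3, hV⟩ := key β hβ
    let v : Fin m → IC F' y := fun k => ⟨co β u (y₀ k), (ic _).1
      (isIntegral_algebraMap (x := (⟨_, Algebra.subset_adjoin ⟨y₀ k, rfl⟩⟩ : RF F' (co β u))))⟩
    obtain ⟨P, P0, hP⟩ := EtK_cod y3
      {b | ∃ H e j, Wit U z {x | IsIntegral (RF F' (co β u)) x} (b : K) H e j} (fun V h => by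
        obtain ⟨-, ⟨H, e, j, c1, c2, c3, c4, c5⟩, -⟩ := hV V h
        obtain ⟨b, b1, b2, b3⟩ := EtK_den y3 h
          (fun o : Option (Fin n) => o.elim (z j ^ e / aeval z H) fun i => z i / z j) (by
            rintro (_ | i)
            · show _ / _ ∈ V
              rw [← V.valuation_le_one_iff, ← inv_div, map_inv₀, c4, inv_one]
            · exact c3 i)
        exact ⟨⟨b, b1⟩, ⟨H, e, j, c1, c5, c2, fun e => by simp [e] at c4, (ic _).2 b1,
          fun i => (ic _).2 (b3 (some i)), (ic _).2 (b3 none)⟩, b2⟩) v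
    obtain ⟨N, ρ, b, hb⟩ := Submodule.mem_span_set'.1 hP
    choose H e j hW using fun i => (b i).2
    refine ⟨P, N, fun i => ρ i, fun i => (b i).1, H, e, j, P0, ?_, fun i => ⟨(ic _).2 (ρ i).2, hW i⟩⟩
    have := congrArg ((IC F' y).val.restrictScalars F') hb
    rw [map_sum, comp_aeval_apply] at this
    exact this.symm

end Pool.Agent.MP_c69980_ag.H43
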